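import Pool.Agent.Q137.UO.WOrd
import Pool.Agent.Q137.UO.Inf

/-!
# Dense ordinary reduction of abelian varieties, and one weight of cubic hypersurfaces

Let `M` be the category of motives over `ℚ` (for motivated cycles), a semisimple abelian category. Let `w`
be an integer. For a scheme `X` of finite type over `ℚ` let `D.H N n X` be the object
`Gr^W_{w+2N} H^n_c(X)` of `M`; for smooth projective `X` it is `h^n(X)` if `n = w + 2N`, and it is zero
otherwise. Let `ord N` be the set of the prime numbers `p` such that the `p`-adic realization of `N` is
crystalline at `p`, and the Newton polygon of its crystalline Frobenius is the Hodge polygon of `N`.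

`ProjAt D ord Set.Infinite N` is the statement that for every smooth projective scheme `Y` over `ℚ` there
are infinitely many primes at which the Newton polygon of `H^m(Y)` is its Hodge polygon, `m = w + 2N`.

For `w = 1` and `N = 0` this is equivalent to question Q1 for abelian varieties (over all algebraically
closed fields `k` of characteristic `0`, and all models). Indeed `h^1(Y)` is `h^1` of the Albanese variety.
If `X_A` is a model of an abelian variety over `A` and `0 ≠ a ∈ A`, there is a homomorphism from `A_a` to a
ring `R = 𝓞_L[1/n]`, `L` a number field; if the Weil restriction to `ℚ` of the generic fibre of `X_R` is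
ordinary at infinitely many primes, then `X_R` is ordinary at infinitely many places of `L`, whose images
in `Spec A_a` are ordinary points.

`GraphsAt D ord Set.Infinite N` is the statement that for finitely many finite sets `H_s` of triples
`(i, j, l)` with `1 ≤ i ≤ a_s`, and degrees `n_s`, there are infinitely many common ordinary primes for the
motives `Gr^W_{m + 2(a_s - 1)} H^{n_s}_c(X_s)`, where `X_s` is the cubic hypersurface
`∑_{(i, j, l) ∈ H_s} x_i y_j z_l = 1`.

**Theorem.** The two statements are equivalent. In particular (`w = 1`, `N = 0`) all abelian varieties over
`ℚ` are ordinary at infinitely many primes if and only if finitely many motives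
`Gr^W_{2a_s - 1} H^{n_s}_c(X_s)` always have infinitely many common ordinary primes.

If for all smooth projective `Y` almost all primes are ordinary for `H^m(Y)` (this is known for `m ≤ 0`),
then almost all primes are ordinary for `Gr^W_{m + 2(a - 1)} H^n_c`, for all hypersurfaces
`T(x, y, z) = 1` of trilinear forms with rational coefficients in `a` variables `x`, and all `n`. So
`Gr^W_{2j} H^n_c(T = 1)` is ordinary at almost all primes for `j < a`.
-/

set_option autoImplicit false

open CategoryTheory CategoryTheory.Limits AlgebraicGeometry Pool.Agent.Y116.UV Pool.Agent.Z125.UN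
  Pool.Agent.Q193.LT Pool.Agent.Q137.UO Pool.Agent.Q49.WU

universe v u

namespace Pool.Agent.Results.MP_adc574_ag.AbelianVarieties

/-- **Infinitely many ordinary primes, weight by weight.** See the explanations above. -/
theorem result {M : Type u} [Category.{v} M] [Abelian M] {D : WeightData ℚ M} (h : IsWMotives D)
    {ord : M → Set Nat.Primes} (hO : IsWPlace D ord) (N : ℤ) :
    (ProjAt D ord Set.Infinite N ↔ GraphsAt D ord Set.Infinite N) ∧
    ((∀ (Y : Sch ℚ) (n : ℤ), SmoothProj Y → (Set.univ \ ord (D.H N n Y)).Finite) →
      ∀ (a b c : ℕ) (T : Fin a → Fin b → Fin c → ℚ) (n : ℤ),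
        (Set.univ \ ord (D.H (N + (a - 1)) n (hypS T))).Finite) :=
  ⟨graphs_at_iff h hO large_infinite frac_rat N, fun h0 _ _ _ T n => almost_all_at h hO N h0 T n⟩

end Pool.Agent.Results.MP_adc574_ag.AbelianVarieties
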