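import Pool.Agent.Q205.HWc.Spread

/-!
# Dense ordinary reduction of the curves `y ^ m = f (x)` with one transcendental coefficient

`k` is a field of characteristic `0`. The curves `y ^ m = f (x)`, `f` squarefree of degree `n`.

**Theorem.** Let `C_i : y ^ (m i) = f_i (x)` be finitely many curves over `k`, with
`f_i = g_i (x) + t_{s(i)} x ^ (j i)` of degree `n i ≥ 2` and `f_i (0) ≠ 0`; the exponents `m i`, the
indices `0 ≤ j i ≤ n i` and the other coefficients of the `f_i` are arbitrary (for example algebraic
numbers), and the `t_σ` are algebraically independent over the field generated by all the coefficients of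
the `g_i`. (For one curve: some coefficient of `f` is transcendental over the field generated by the
other coefficients, and `f (0) ≠ 0`.) Let `A ⊂ k` be a finitely generated ring over which the curves are
defined and `c ≠ 0` in `A`. Then for all large primes `p` which are `1` modulo
`∏ m i * max (j i) 1 * max (n i - j i) 1` there is a closed point of `Spec A` of characteristic `p` with
`c ≠ 0` at which all the blocks of the Hasse-Witt matrices of all the curves are invertible.

For `p ≡ 1 (mod m)` the Cartier operator maps the span of the holomorphic differentials
`x ^ (l - 1) dx / y ^ a` (`m l < n a`) to itself, for each `0 < a < m`, and its matrix is the block with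
the index `a`. So for `c` divisible by the `m i`, the leading coefficients and the discriminants the
reductions are smooth curves and ordinary, and so are their products: the closed points at which the
product of the `C_i` has ordinary reduction are dense in `Spec A`. (The discriminant of `f_i` is not zero,
as `t` is transcendental over the field generated by the coefficients of `g_i`.)

Proof. In characteristic `p`, `p = m J L q + 1`, the entries of a block are polynomials in `t`; with
`M = a J L q` the exponents `r` of `t` in the entry `(i, l)` satisfy `j r ≤ p i - l` and
`(n - j) r ≤ n M - p i + l`. With suitable weights for the rows and the columns all terms of the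
determinant except the product of the diagonal have smaller degree (for the rows `i m ≤ j a` the first
bound is sharp, for the others the second one), and the leading coefficients on the diagonal are
binomial coefficients times powers of `f (0)` and of the leading coefficient of `f`. So the determinant
is not zero. The theorem of Chevalley and the Jacobson property of `A` give the closed points.
-/

set_option autoImplicit false

open Polynomial

namespace Pool.Agent.Results.MP_adc574_ag.OneTranscendentalCoefficient

/-- The block with the index `a` of the Hasse-Witt (Cartier-Manin) matrix of `y ^ m = f (x)`, in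
characteristic `p` with `m` dividing `p - 1`: the entry with the indices `i`, `l` (from `0`) is the
coefficient of `x ^ (p (i + 1) - (l + 1))` in `f ^ (a (p - 1) / m)`, written as the coefficient of
`x ^ (p (i + 1))` in `x ^ (l + 1) f ^ (a (p - 1) / m)`. -/
noncomputable def hasseWitt {R : Type*} [CommRing R] (p m a g : ℕ) (f : R[X]) :
    Matrix (Fin g) (Fin g) R :=
  Matrix.of fun i l => (X ^ ((l : ℕ) + 1) * f ^ (a * ((p - 1) / m))).coeff (p * ((i : ℕ) + 1))

/-- the number of the `l ≥ 1` with `m l < n a`: the number of the holomorphic differentials
`x ^ (l - 1) dx / y ^ a` on `y ^ m = f (x)`, for `f` squarefree of degree `n` -/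
def genusPart (m n a : ℕ) : ℕ := (n * a - 1) / m

theorem result {k σ ι : Type*} [Finite σ] [Fintype ι] [Field k] [CharZero k]
    -- finitely many curves `y ^ (m i) = g i + t (s i) x ^ (j i)`
    (m n j : ι → ℕ) (hm : ∀ i, 0 < m i) (hn : ∀ i, 2 ≤ n i) (hj : ∀ i, j i ≤ n i) (g : ι → k[X])
    (hg : ∀ i, (g i).natDegree ≤ n i)
    -- the right hand sides have degree `n i` and do not vanish at `0`
    (h0 : ∀ i, 0 < j i → (g i).coeff 0 ≠ 0) (hn' : ∀ i, j i < n i → (g i).coeff (n i) ≠ 0)
    (t : σ → k) (s : ι → σ)
    -- the `t`'s are algebraically independent over the field generated by the coefficients of the `g i`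
    (ht : AlgebraicIndependent (IntermediateField.adjoin ℚ (⋃ i, Set.range (g i).coeff)) t)
    -- a finitely generated ring over which the curves are defined, a nonempty open set
    (A : Subalgebra ℤ k) (hA : A.FG) (F : ι → A[X])
    (hF : ∀ i, (F i).map (algebraMap A k) = C (t (s i)) * X ^ (j i) + g i)
    (c : A) (hc : c ≠ 0) :
    ∃ N : ℕ, ∀ p : ℕ, N ≤ p → p.Prime →
      p ≡ 1 [MOD ∏ i, (m i * (max (j i) 1 * max (n i - j i) 1))] →
      ∃ M : Ideal A, M.IsMaximal ∧ (p : A) ∈ M ∧ c ∉ M ∧
      ∀ i a, 0 < a → a < m i → (hasseWitt p (m i) a (genusPart (m i) (n i) a)
        ((F i).map (Ideal.Quotient.mk M))).det ≠ 0 :=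
  Pool.Agent.Q205.HWc.main m n j hm hn hj g hg h0 hn' t ht s A hA F hF c hc

end Pool.Agent.Results.MP_adc574_ag.OneTranscendentalCoefficient
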