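import Pool.Agent.Q137.UO.Ord
import Pool.Agent.Q137.UO.Inf

/-!
# Dense ordinary reduction, and cubic hypersurfaces

Let `M` be the category of motives over `ℚ` (for motivated cycles), a semisimple abelian category. For a
scheme `X` of finite type over `ℚ` let `D.H i X` be the graded object of the weight filtration of
`H^i_c(X)`; for smooth projective `X` it is the motive `h^i(X)`.

* `O.ord N` is the set of the prime numbers `p` such that the `p`-adic realization of `N` is crystalline at
  `p`, and the Newton polygon of its crystalline Frobenius is the Hodge polygon of `N`. The Newton polygon
  lies above the Hodge polygon, so this is inherited by direct factors.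
* `O.places X` is the set of the prime numbers at which `X` is ordinary: the primes which belong to
  `O.ord (D.H i X)` for all `i`. For smooth projective `X` these are, up to finitely many, the primes `p`
  for which the reduction of `X` is ordinary in the sense of Bloch and Kato.

Question Q1 (for all algebraically closed fields `k` of characteristic `0`, all smooth projective
varieties over `k` and all models) has a positive answer if and only if every smooth projective scheme
`Y` over `ℚ` is ordinary at infinitely many primes. Indeed, let `X_A` be a smooth projective model over
`A` and `0 ≠ a ∈ A`. There is a homomorphism from `A_a` to a ring `R = 𝓞_F[1/N]`, `F` a number field; if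
the generic fibre of `X_R`, considered as a scheme over `ℚ`, is ordinary at infinitely many primes, then
so is `X_R` at infinitely many places of `F`, whose images in `Spec A_a` are ordinary points. Conversely
let `X` be the product of the connected components of `Y` over an algebraic closure of `ℚ`.

**Theorem.**
1. Every smooth projective scheme over `ℚ` is ordinary at infinitely many primes if and only if for all
   finite families of finite sets `H_s` of triples there are infinitely many primes at which all the
   affine cubic hypersurfaces `∑_{(i, j, l) ∈ H_s} x_i y_j z_l = 1` are ordinary.
2. For every `n` every smooth projective scheme over `ℚ` of dimension at most `n` is ordinary at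
   infinitely many primes if and only if finitely many hypersurfaces `T(x, y, z) = 1`, `T` a trilinear form
   with rational coefficients and a block of at most `n + 2` variables, always have infinitely many
   common ordinary primes.
3. A hypersurface `T(x, y, z) = 1` is ordinary at all but finitely many primes, if `T` has a block of at
   most two variables.
-/

set_option autoImplicit false

open CategoryTheory CategoryTheory.Limits AlgebraicGeometry Pool.Agent.Y116.UV Pool.Agent.Z125.UN
  Pool.Agent.Q193.LT Pool.Agent.Q137.UO

universe v u

namespace Pool.Agent.Results.MP_adc574_ag.OrdinaryCubics

/-- **Dense ordinary reduction, and cubic hypersurfaces.** See the explanations above. -/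
theorem result {M : Type u} [Category.{v} M] [Abelian M] {D : CompactData ℚ M} (h : IsMotives D)
    {O : PlaceData ℚ M Nat.Primes} (hO : IsPlace D O) :
    ((∀ Y : Sch ℚ, SmoothProj Y → (O.places Y).Infinite) ↔ FamGraphs O Set.Infinite) ∧
    (∀ n : ℕ, (∀ Y : Sch ℚ, SmoothProj Y → topologicalKrullDim Y.left ≤ n →
      (O.places Y).Infinite) ↔ FamForms O Set.Infinite (n + 2)) ∧
    ∀ (a b c : ℕ) (T : Fin a → Fin b → Fin c → ℚ), (a ≤ 2 ∨ b ≤ 2 ∨ c ≤ 2) →
      (Set.univ \ O.places (hypS T)).Finite :=
  ⟨graphs_iff h hO large_infinite frac_rat, fun n => dim_forms_iff h hO large_infinite n,
    fun _ _ _ T hT => two_variables h hO T hT⟩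

end Pool.Agent.Results.MP_adc574_ag.OrdinaryCubics
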