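import Pool.Agent.Q148.UP.BK

/-!
# One infinite set of prime numbers for the ordinary reduction of all smooth projective varieties

Let `V` be the commutative monoid (for the product) of isomorphism classes of geometrically connected smooth
projective varieties over `ℚ`, `W` the set of isomorphism classes of pairs (number field `K`,
geometrically connected smooth projective variety over `K`), `G` the set of all models `X_A → Spec A` as in
the question, for all algebraically closed fields `k` of characteristic zero. `ordV p X`, `ordW Y p P` say
that the reduction of `X` at `p`, of `Y` at the place `P` above `p`, is ordinary in the sense of Bloch and
Kato (for the finitely many bad places the value does not matter), `ord g` is the set of the closed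
points of `Spec A` with ordinary fibre.

**Theorem.** The following are equivalent:

1. question Q1 has a positive answer: for all `k`, `X` and all models the closed points with ordinary
   fibre are dense in `Spec A`;
2. every smooth projective variety over a number field has infinitely many places of ordinary reduction;
3. every geometrically connected smooth projective variety over `ℚ` has ordinary reduction at infinitely
   many prime numbers;
4. any finite set of such varieties has ordinary reduction at infinitely many common prime numbers;
5. there is one infinite set `P₀` of prime numbers such that for every number field `K` and every
   geometrically connected smooth projective variety `Y` over `K`, for all but finitely many `p` in `P₀`,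
   `Y` has ordinary reduction at all places of `K` above `p`.
-/

set_option autoImplicit false

open Pool.Agent.Q148.UP

namespace Pool.Agent.Results.MP_adc574_ag.UniversalPrimes

/-- **A universal set of prime numbers.** See the explanations above. -/
theorem result (V W G : Type) [CommMonoid V] [Countable V] (D : BKData V W G) (h : IsBK D) :
    List.TFAE [
      ∀ g : G, Dense (D.ord g),
      ∀ Y : W, {x : Σ p : Nat.Primes, D.place Y p | D.ordW Y x.1 x.2}.Infinite,
      ∀ X : V, {p | D.ordV p X}.Infinite,
      ∀ s : Finset V, {p | ∀ X ∈ s, D.ordV p X}.Infinite,
      ∃ P₀ : Set Nat.Primes, P₀.Infinite ∧
        ∀ Y : W, (P₀ \ {p | ∀ P : D.place Y p, D.ordW Y p P}).Finite] :=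
  bk_tfae h inferInstance

end Pool.Agent.Results.MP_adc574_ag.UniversalPrimes
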